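import Pool.Agent.V11329.Ew.Main

/-! Ewens permutations: about `β log n` of them never fail to invariably generate with high
probability, however small `β > 0` is. -/

set_option autoImplicit false

namespace Pool.Agent.Results.MP_afae70_pr.NoLogThreshold

open Finset Filter
open scoped Topology Classical

noncomputable section

/-- number of cycles of a permutation of `Fin n`: nontrivial cycles plus fixed points -/
def numCycles {n : ℕ} (σ : Equiv.Perm (Fin n)) : ℕ :=
  Multiset.card σ.cycleType + (Finset.univ.filter fun x => σ x = x).card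

/-- Ewens probability of `σ`: `α ^ (number of cycles) / (α (α+1) ⋯ (α+n-1))` -/
def ewensProb {n : ℕ} (α : ℝ) (σ : Equiv.Perm (Fin n)) : ℝ :=
  α ^ (numCycles σ) / ∏ i ∈ Finset.range n, (α + (i : ℝ))

/-- `s 0, …, s (N-1)` invariably generate the symmetric group -/
def InvariablyGenerate {n N : ℕ} (s : Fin N → Equiv.Perm (Fin n)) : Prop :=
  ∀ τ : Fin N → Equiv.Perm (Fin n),
    Subgroup.closure (Set.range fun i => τ i * s i * (τ i)⁻¹) = ⊤

/-- the probability that `N` independent Ewens-`α` permutations invariably generate `S_n` -/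
def p (α : ℝ) (n N : ℕ) : ℝ :=
  ∑ s : Fin N → Equiv.Perm (Fin n),
    (∏ i, ewensProb α (s i)) * (if InvariablyGenerate s then 1 else 0)

theorem result :
    (∀ α : ℝ, 1 ≤ α → ∀ β : ℝ, 0 < β →
      ∃ δ : ℝ, 0 < δ ∧ ∃ᶠ n : ℕ in atTop, δ ≤ p α n ⌊β * Real.log n⌋₊) ∧
    (∀ α : ℝ, 1 / Real.log 2 < α →
      ¬ ∃ β β' : ℝ, 0 < β ∧ β < β' ∧
        Tendsto (fun n : ℕ => p α n ⌊β * Real.log n⌋₊) atTop (𝓝 0) ∧
        0 < liminf (fun n : ℕ => p α n ⌈β' * Real.log n⌉₊) atTop) := by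
  have h1 : ∀ α : ℝ, 1 ≤ α → ∀ β : ℝ, 0 < β →
      ∃ δ : ℝ, 0 < δ ∧ ∃ᶠ n : ℕ in atTop, δ ≤ p α n ⌊β * Real.log n⌋₊ :=
    fun α hα β hβ => Pool.Agent.V11329.Ew.freq α hα β hβ
  refine ⟨h1, ?_⟩
  rintro α hα ⟨β, β', hβ, _, ht, _⟩
  have hα1 : 1 ≤ α := by
    have h2 : Real.log 2 < 1 := by
      have := Real.log_two_lt_d9
      linarith
    have h3 : 0 < Real.log 2 := Real.log_pos (by norm_num)
    have h4 : 1 ≤ 1 / Real.log 2 := by
      rw [le_div_iff₀ h3]
      linarith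
    linarith
  obtain ⟨δ, hδ, hf⟩ := h1 α hα1 β hβ
  have h5 := ht.eventually (gt_mem_nhds hδ)
  obtain ⟨n, hn1, hn2⟩ := (hf.and_eventually h5).exists
  linarith

end

end Pool.Agent.Results.MP_afae70_pr.NoLogThreshold
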